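import Mathlib
import Pool.Agent.V11280.TE.Final

set_option autoImplicit false

/-!
# MP_d00095_nt: if some `‡`-order is `‡`-Euclidean, then every maximal `‡`-order is

`K` is a number field and `H = ℍ[K,a,b]` (with `a b ≠ 0`) is the quaternion algebra `(a, b / K)`;
`star` is its standard involution.
-/

namespace Pool.Agent.Results.MP_d00095_nt.MaximalEuclidean

open Quaternion NumberField Pool.Agent.V11280

universe v

variable {K : Type*} [Field K] [NumberField K] {a b : K}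

/-- The map `z ↦ z^‡ = u z̄ u⁻¹`. -/
def dagger (u : ℍ[K,a,b]ˣ) (z : ℍ[K,a,b]) : ℍ[K,a,b] := u * star z * ↑u⁻¹

/-- An order of `ℍ[K,a,b]`: a subring which is a finitely generated `𝓞 K`-module and spans
`ℍ[K,a,b]` over `K`. -/
def IsOrder (O : Subalgebra (𝓞 K) ℍ[K,a,b]) : Prop :=
  (Subalgebra.toSubmodule O).FG ∧ Submodule.span K (O : Set ℍ[K,a,b]) = ⊤

/-- A `‡`-order: an order `O` with `O^‡ = O`. -/
def IsDaggerOrder (u : ℍ[K,a,b]ˣ) (O : Subalgebra (𝓞 K) ℍ[K,a,b]) : Prop :=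
  IsOrder O ∧ dagger u '' (O : Set ℍ[K,a,b]) = (O : Set ℍ[K,a,b])

/-- A maximal `‡`-order: a `‡`-order not strictly contained in another `‡`-order. -/
def IsMaximalDaggerOrder (u : ℍ[K,a,b]ˣ) (O : Subalgebra (𝓞 K) ℍ[K,a,b]) : Prop :=
  IsDaggerOrder u O ∧ ∀ O' : Subalgebra (𝓞 K) ℍ[K,a,b], IsDaggerOrder u O' → ¬ O < O'

/-- `O⁺ = {z ∈ O : z^‡ = z}`. -/
def plus (u : ℍ[K,a,b]ˣ) (O : Subalgebra (𝓞 K) ℍ[K,a,b]) : Set ℍ[K,a,b] :=
  {z | z ∈ O ∧ dagger u z = z}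

/-- `O` is `‡`-Euclidean: there are a well-ordered set `W` and `Φ : O → W` such that for all
`x, y ∈ O` with `y ≠ 0` and `x y^‡ ∈ O⁺` there is `q ∈ O⁺` with `Φ (x - y q) < Φ y`. -/
def IsDaggerEuclidean (u : ℍ[K,a,b]ˣ) (O : Subalgebra (𝓞 K) ℍ[K,a,b]) : Prop :=
  ∃ (W : Type v) (_ : LinearOrder W) (_ : WellFoundedLT W) (Φ : O → W),
    ∀ x y : O, y ≠ 0 → (x : ℍ[K,a,b]) * dagger u y ∈ plus u O →
      ∃ q : O, (q : ℍ[K,a,b]) ∈ plus u O ∧ Φ (x - y * q) < Φ y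

/-- Let `u ∈ H^× ∖ K` with `u² ∈ K` define the orthogonal involution `z^‡ = u z̄ u⁻¹` of the
quaternion algebra `H = (a, b / K)`. If some `‡`-order of `H` is `‡`-Euclidean, then every maximal
`‡`-order of `H` is `‡`-Euclidean. -/
theorem result (ha : a ≠ 0) (hb : b ≠ 0) (u : ℍ[K,a,b]ˣ)
    (hu : (u : ℍ[K,a,b]) ∉ Set.range (algebraMap K ℍ[K,a,b]))
    (hu2 : (u : ℍ[K,a,b]) ^ 2 ∈ Set.range (algebraMap K ℍ[K,a,b]))
    (h : ∃ O : Subalgebra (𝓞 K) ℍ[K,a,b], IsDaggerOrder u O ∧ IsDaggerEuclidean.{v} u O)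
    (O' : Subalgebra (𝓞 K) ℍ[K,a,b]) (hO' : IsMaximalDaggerOrder u O') :
    IsDaggerEuclidean.{v} u O' := by
  obtain ⟨O₀, hO₀, W, _, _, Φ₀, hΦ₀⟩ := h
  let Q := TE.quatData (K := K) (a := a) (b := b) two_ne_zero ha hb
  obtain ⟨Φ', hΦ'⟩ := TE.final Q u (TE.star_eq_neg_of Q u hu hu2) O₀ hO₀.1.1 hO₀.1.2 hO₀.2 Φ₀ hΦ₀
    O' hO'.1.1.1 hO'.1.1.2 hO'.1.2 hO'.2
  exact ⟨W, inferInstance, inferInstance, Φ', hΦ'⟩

end Pool.Agent.Results.MP_d00095_nt.MaximalEuclidean
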